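import Pool.Agent.T9h32.OR.Spec
import Pool.Agent.T9h32.GT.Mat

/-!
# Piece M: from vectors to matrices
-/

set_option autoImplicit false

namespace Pool.Agent.T9h82.OR

open Finset Matrix
open Pool.Agent.T9h32.GT (om nil2 nil2_mul exists_sqrt)
open Pool.Agent.T9h32.OR

section

variable {k : Type} [Field k]

theorem exists_basis (v : Fin 2 → k) (hv : v ≠ 0) : ∃ x y : k, v 0 * y - v 1 * x = 1 := by
  by_cases h : v 0 = 0
  · have h1 : v 1 ≠ 0 := by
      intro h1
      apply hv
      funext i
      fin_cases i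
      · exact h
      · exact h1
    exact ⟨-(v 1)⁻¹, 0, by rw [mul_zero, zero_sub, mul_neg, neg_neg, mul_inv_cancel₀ h1]⟩
  · exact ⟨0, (v 0)⁻¹, by rw [mul_zero, sub_zero, mul_inv_cancel₀ h]⟩

/-- `M ↦ Q M P` -/
noncomputable def cj (P Q : Matrix (Fin 2) (Fin 2) k) :
    Matrix (Fin 2) (Fin 2) k →ₗ[k] Matrix (Fin 2) (Fin 2) k :=
  (LinearMap.mulLeft k Q).comp (LinearMap.mulRight k P)

theorem cj_apply (P Q M : Matrix (Fin 2) (Fin 2) k) : cj P Q M = Q * (M * P) := rfl

theorem cj_mul {P Q : Matrix (Fin 2) (Fin 2) k} (h : P * Q = 1) (M N : Matrix (Fin 2) (Fin 2) k) :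
    cj P Q (M * N) = cj P Q M * cj P Q N := by
  simp only [cj_apply]
  have h1 : Q * (M * P) * (Q * (N * P)) = Q * (M * ((P * Q) * (N * P))) := by
    simp only [Matrix.mul_assoc]
  rw [h1, h, Matrix.one_mul, Matrix.mul_assoc M N P]

theorem cj_inj {P Q : Matrix (Fin 2) (Fin 2) k} (h : P * Q = 1) {M : Matrix (Fin 2) (Fin 2) k}
    (hM : cj P Q M = 0) : M = 0 := by
  rw [cj_apply] at hM
  have h1 : P * (Q * (M * P)) * Q = 0 := by rw [hM, Matrix.mul_zero, Matrix.zero_mul]
  have h2 : P * (Q * (M * P)) * Q = (P * Q) * (M * (P * Q)) := by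
    simp only [Matrix.mul_assoc]
  rw [h2, h, Matrix.one_mul, Matrix.mul_one] at h1
  exact h1

theorem core {ι : Type} [Fintype ι] [DecidableEq ι] [IsAlgClosed k] (h2 : (2 : k) ≠ 0)
    {lam : ι → ι → k} {u b : ι → k} {e : ℤ}
    (hN : ∀ (α β : ι → k) (c d : k), Rel lam u b e α β c d → ∀ i j, om α β i j = 0)
    (C : Matrix (Fin 2) (Fin 2) k) (T : ι → Matrix (Fin 2) (Fin 2) k)
    (htr : C 0 0 + C 1 1 = 0) (h10 : C 1 0 = 0) (hT : ∀ i, T i * T i = 0)
    (hrel : ∀ i, (u i • C + ∑ j, lam i j • T j) * T i - T i * (u i • C + ∑ j, lam i j • T j) =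
      ((e : k) * u i) • T i)
    (hb : (∑ j, b j • T j) 1 0 = 0) (i j : ι) : T i * T j = 0 := by
  choose α β hαβ using fun i => exists_sqrt (T i) (hT i)
  have hTn : ∀ i, T i = nil2 (α i) (β i) := hαβ
  have h11 : C 1 1 = -(C 0 0) := by linear_combination htr
  have hent : ∀ i, u i • (C * T i - T i * C) + (∑ j, lam i j • (T j * T i - T i * T j)) =
      ((e : k) * u i) • T i := by
    intro i
    rw [← hrel i, Matrix.add_mul, Matrix.mul_add, Finset.sum_mul, Finset.mul_sum]
    have h3 : ∑ j, lam i j • (T j * T i - T i * T j) =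
        ∑ j, lam i j • T j * T i - ∑ j, T i * lam i j • T j := by
      rw [← Finset.sum_sub_distrib]
      refine Finset.sum_congr rfl fun j _ => ?_
      rw [smul_sub, smul_mul_assoc, mul_smul_comm]
    rw [h3, smul_sub, smul_mul_assoc, mul_smul_comm]
    abel
  have hcomm : ∀ i j, T j * T i - T i * T j = om α β j i •
      !![-(α j * β i + α i * β j), 2 * (α i * α j); -(2 * (β i * β j)), α j * β i + α i * β j] := by
    intro i j
    rw [hTn i, hTn j, nil2_mul, nil2_mul]
    unfold om
    ext a b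
    fin_cases a <;> fin_cases b <;> simp <;> ring
  have hC : ∀ i, C * T i - T i * C =
      !![C 0 1 * (β i * β i), -(2 * C 0 0 * (α i * α i) + 2 * C 0 1 * (α i * β i));
        -(2 * C 0 0 * (β i * β i)), -(C 0 1 * (β i * β i))] := by
    intro i
    rw [hTn i]
    unfold nil2
    ext a b
    fin_cases a <;> fin_cases b <;>
      simp only [Matrix.sub_apply, Matrix.mul_apply, Fin.sum_univ_two, of_apply, cons_val',
        cons_val_zero, cons_val_one, cons_val_fin_one, h10, h11, Fin.zero_eta, Fin.mk_one,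
        Fin.isValue] <;> ring
  have key : ∀ i, 2 * ∑ j, lam i j * om α β j i * α j =
        u i * ((2 * C 0 0 - (e : k)) * α i + 2 * C 0 1 * β i) ∧
      2 * ∑ j, lam i j * om α β j i * β j = -(u i * ((2 * C 0 0 + (e : k)) * β i)) := by
    intro i
    have h := hent i
    simp only [hcomm, hC] at h
    rw [hTn i] at h
    set Z1 := ∑ j, lam i j * om α β j i * α j with hZ1
    set Z2 := ∑ j, lam i j * om α β j i * β j with hZ2
    have e01 : α i * (2 * Z1 - u i * ((2 * C 0 0 - (e : k)) * α i + 2 * C 0 1 * β i)) = 0 := by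
      have h' := congrFun (congrFun h 0) 1
      rw [Matrix.add_apply, Matrix.sum_apply] at h'
      simp only [nil2, Matrix.smul_apply, of_apply, cons_val', cons_val_one, cons_val_zero,
        cons_val_fin_one, smul_eq_mul] at h'
      have h3 : ∑ j, lam i j * (om α β j i * (2 * (α i * α j))) = 2 * α i * Z1 := by
        rw [hZ1, Finset.mul_sum]
        exact Finset.sum_congr rfl fun j _ => by ring
      rw [h3] at h'
      linear_combination h'
    have e10 : β i * (2 * Z2 + u i * ((2 * C 0 0 + (e : k)) * β i)) = 0 := by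
      have h' := congrFun (congrFun h 1) 0
      rw [Matrix.add_apply, Matrix.sum_apply] at h'
      simp only [nil2, Matrix.smul_apply, of_apply, cons_val', cons_val_one, cons_val_zero,
        cons_val_fin_one, smul_eq_mul] at h'
      have h3 : ∑ j, lam i j * (om α β j i * -(2 * (β i * β j))) = -(2 * β i * Z2) := by
        rw [hZ2, Finset.mul_sum, ← Finset.sum_neg_distrib]
        exact Finset.sum_congr rfl fun j _ => by ring
      rw [h3] at h'
      linear_combination -h'
    have e00 : β i * Z1 + α i * Z2 = u i * (C 0 1 * (β i * β i)) - (e : k) * u i * (α i * β i) := by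
      have h' := congrFun (congrFun h 0) 0
      rw [Matrix.add_apply, Matrix.sum_apply] at h'
      simp only [nil2, Matrix.smul_apply, of_apply, cons_val', cons_val_zero,
        cons_val_fin_one, smul_eq_mul] at h'
      have h3 : ∑ j, lam i j * (om α β j i * -(α j * β i + α i * β j)) =
          -(β i * Z1 + α i * Z2) := by
        rw [hZ1, hZ2, Finset.mul_sum, Finset.mul_sum, ← Finset.sum_add_distrib,
          ← Finset.sum_neg_distrib]
        exact Finset.sum_congr rfl fun j _ => by ring
      rw [h3] at h'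
      linear_combination -h'
    by_cases hα : α i = 0
    · by_cases hβ : β i = 0
      · have h0 : ∀ j, om α β j i = 0 := by
          intro j
          unfold om
          rw [hα, hβ]
          ring
        rw [hZ1, hZ2]
        simp [h0, hα, hβ]
      · have h3 := (mul_eq_zero.1 e10).resolve_left hβ
        rw [hα] at e00 ⊢
        constructor
        · have : β i * (2 * Z1 - u i * (2 * C 0 1 * β i)) = 0 := by linear_combination 2 * e00
          have h4 := (mul_eq_zero.1 this).resolve_left hβ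
          linear_combination h4
        · linear_combination h3
    · have t2 := (mul_eq_zero.1 e01).resolve_left hα
      have t3 : α i * (2 * Z2 + u i * ((2 * C 0 0 + (e : k)) * β i)) = 0 := by
        linear_combination 2 * e00 - β i * t2
      have t4 := (mul_eq_zero.1 t3).resolve_left hα
      exact ⟨by linear_combination t2, by linear_combination t4⟩
  have hbb : ∑ j, b j * (β j * β j) = 0 := by
    rw [Matrix.sum_apply] at hb
    rw [← hb]
    refine Finset.sum_congr rfl fun j _ => ?_
    rw [hTn j]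
    simp [nil2]
  have h0 := hN α β (2 * C 0 0) (2 * C 0 1) ⟨fun i => (key i).1, fun i => (key i).2, hbb⟩ i j
  rw [hTn i, hTn j, nil2_mul, h0, zero_smul]

end

theorem matC : StMatC := by
  intro k _ _ ι _ _ lam u b e h2 _ hN C T htr hT hrel hv i j
  obtain ⟨v, hv0, ⟨c1, hc1⟩, ⟨c2, hc2⟩⟩ := hv
  obtain ⟨x, y, hxy⟩ := exists_basis v hv0
  obtain ⟨P, hP⟩ : ∃ P : Matrix (Fin 2) (Fin 2) k, P = !![v 0, x; v 1, y] := ⟨_, rfl⟩
  obtain ⟨Q, hQ⟩ : ∃ Q : Matrix (Fin 2) (Fin 2) k, Q = !![y, -x; -(v 1), v 0] := ⟨_, rfl⟩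
  have hPQ : P * Q = 1 := by
    rw [hP, hQ]
    ext a b
    fin_cases a <;> fin_cases b <;>
      simp [Matrix.mul_apply, Fin.sum_univ_two] <;> first | linear_combination hxy | ring
  have hev : ∀ (M : Matrix (Fin 2) (Fin 2) k) (c : k), M *ᵥ v = c • v → cj P Q M 1 0 = 0 := by
    intro M c hM
    have m0 := congrFun hM 0
    have m1 := congrFun hM 1
    simp only [Matrix.mulVec, dotProduct, Fin.sum_univ_two, Pi.smul_apply, smul_eq_mul] at m0 m1
    rw [cj_apply, hP, hQ]
    simp only [Matrix.mul_apply, Fin.sum_univ_two, of_apply, cons_val', cons_val_zero,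
      cons_val_one, cons_val_fin_one]
    linear_combination (-(v 1)) * m0 + v 0 * m1
  refine cj_inj hPQ ?_
  rw [cj_mul hPQ]
  refine core h2 hN (cj P Q C) (fun i => cj P Q (T i)) ?_ (hev C c1 hc1) ?_ ?_ ?_ i j
  · have h3 : (cj P Q C).trace = 0 := by
      rw [cj_apply, ← Matrix.mul_assoc, Matrix.trace_mul_cycle, hPQ, Matrix.one_mul, htr]
    rw [Matrix.trace_fin_two] at h3
    exact h3
  · intro i
    rw [← cj_mul hPQ, hT, map_zero]
  · intro i
    have h3 : u i • cj P Q C + ∑ j, lam i j • cj P Q (T j) =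
        cj P Q (u i • C + ∑ j, lam i j • T j) := by
      rw [map_add, map_smul, map_sum]
      simp only [map_smul]
    rw [h3, ← cj_mul hPQ, ← cj_mul hPQ, ← map_sub, hrel i, map_smul]
  · have h3 : ∑ j, b j • cj P Q (T j) = cj P Q (∑ j, b j • T j) := by
      rw [map_sum]
      simp only [map_smul]
    rw [h3]
    exact hev _ c2 hc2

end Pool.Agent.T9h82.OR
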